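import Pool.Agent.H14.RTB.SEL

/-!
Return times, row PAIR: the pairing of `CC` with a bounded function.
-/

namespace Pool.Agent.H14.RTB

open Pool.Agent.H94.RTB MeasureTheory Filter Topology Finset
open scoped ComplexConjugate NNReal

universe u v

/-- the coefficient of `CC` -/
noncomputable def cf {X : Type u} (w : ℕ → ℂ) (N : X → ℕ) (a : X → ℂ) (r : ℕ) (y : X) : ℂ :=
  if r ≤ N y then a y * w r / (N y : ℂ) else 0

theorem CC_eq {X : Type u} [MeasurableSpace X] (T : X ≃ᵐ X) (w : ℕ → ℂ) (L : ℕ)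
    (N : X → ℕ) (a : X → ℂ) (x : X) :
    CC T w L N a x = ∑ r ∈ Icc 1 L, cf w N a r (T.symm^[r] x) := rfl

theorem measurable_cf {X : Type u} [MeasurableSpace X] (w : ℕ → ℂ) {N : X → ℕ} {a : X → ℂ}
    (hN : Measurable N) (ha : Measurable a) (r : ℕ) : Measurable (cf w N a r) := by
  unfold cf
  refine Measurable.ite (measurableSet_le measurable_const hN) ?_ measurable_const
  refine (ha.mul_const _).div ?_
  exact (measurable_from_top (f := fun n : ℕ => (n : ℂ))).comp hN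

theorem norm_cf_le {X : Type u} (w : ℕ → ℂ) {N : X → ℕ} {a : X → ℂ}
    (h1 : ∀ x, 1 ≤ N x) (ha : ∀ x, ‖a x‖ ≤ 1) (r : ℕ) (y : X) : ‖cf w N a r y‖ ≤ ‖w r‖ := by
  unfold cf
  split_ifs
  · rw [norm_div, norm_mul, Complex.norm_natCast]
    have hN : (1 : ℝ) ≤ (N y : ℝ) := by exact_mod_cast h1 y
    rw [div_le_iff₀ (by linarith)]
    have h2 := ha y
    have h3 := norm_nonneg (w r)
    have h4 : ‖a y‖ * ‖w r‖ ≤ 1 * ‖w r‖ := mul_le_mul_of_nonneg_right h2 h3
    nlinarith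
  · simp

theorem measurable_CC {X : Type u} [MeasurableSpace X] (T : X ≃ᵐ X) (w : ℕ → ℂ) (L : ℕ)
    {N : X → ℕ} {a : X → ℂ} (hN : Measurable N) (ha : Measurable a) :
    Measurable (CC T w L N a) := by
  have h : CC T w L N a = fun x => ∑ r ∈ Icc 1 L, cf w N a r (T.symm^[r] x) := rfl
  rw [h]
  refine Finset.measurable_sum _ fun r _ => ?_
  exact (measurable_cf w hN ha r).comp (T.symm.measurable.iterate r)

theorem norm_CC_le {X : Type u} [MeasurableSpace X] (T : X ≃ᵐ X) (w : ℕ → ℂ) (L : ℕ)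
    {N : X → ℕ} {a : X → ℂ} {C : ℝ} (hw : ∀ n, ‖w n‖ ≤ C)
    (h1 : ∀ x, 1 ≤ N x) (ha : ∀ x, ‖a x‖ ≤ 1) (x : X) : ‖CC T w L N a x‖ ≤ C * L := by
  rw [CC_eq]
  calc ‖∑ r ∈ Icc 1 L, cf w N a r (T.symm^[r] x)‖
      ≤ ∑ r ∈ Icc 1 L, ‖cf w N a r (T.symm^[r] x)‖ := norm_sum_le _ _
    _ ≤ ∑ _r ∈ Icc 1 L, C :=
        Finset.sum_le_sum fun r _ => (norm_cf_le w h1 ha r _).trans (hw r)
    _ = C * L := by
        rw [Finset.sum_const, Nat.card_Icc, nsmul_eq_mul]
        simp [mul_comm]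

theorem pf_PAIR : T_PAIR.{u} := by
  intro X _ μ _ T hT w L N a G B hN hNL ha ha1 hG hGB
  have hit : ∀ r : ℕ, MeasurePreserving (T.symm^[r]) μ μ := fun r => (hT.symm T).iterate r
  set h : ℕ → X → ℂ := fun r y => cf w N a r y * G (T^[r] y) with hh
  have hmeas : ∀ r, Measurable (h r) := fun r =>
    (measurable_cf w hN ha r).mul (hG.comp (T.measurable.iterate r))
  have hbd : ∀ r y, ‖h r y‖ ≤ ‖w r‖ * B := by
    intro r y
    rw [hh, norm_mul]
    exact mul_le_mul (norm_cf_le w (fun x => (hNL x).1) ha1 r y) (hGB _) (norm_nonneg _)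
      (norm_nonneg _)
  have hint : ∀ r, Integrable (h r) μ := fun r =>
    Integrable.of_bound (hmeas r).aestronglyMeasurable (‖w r‖ * B)
      (Filter.Eventually.of_forall (hbd r))
  have hinv : ∀ (r : ℕ) (x : X), T^[r] (T.symm^[r] x) = x := fun r x =>
    (Function.LeftInverse.iterate (f := T.symm) (g := T) (fun y => T.apply_symm_apply y) r) x
  have hinth : ∀ r, Integrable (fun x => h r (T.symm^[r] x)) μ := fun r =>
    (hit r).integrable_comp_of_integrable (hint r)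
  have e1 : ∀ x, CC T w L N a x * G x = ∑ r ∈ Icc 1 L, h r (T.symm^[r] x) := by
    intro x
    rw [CC_eq, Finset.sum_mul]
    refine Finset.sum_congr rfl fun r _ => ?_
    simp only [hh, hinv]
  have e2 : ∀ r, ∫ x, h r (T.symm^[r] x) ∂μ = ∫ y, h r y ∂μ := by
    intro r
    conv_rhs => rw [← (hit r).map_eq]
    rw [integral_map (hit r).measurable.aemeasurable (hmeas r).aestronglyMeasurable]
  have e3 : ∀ y, ∑ r ∈ Icc 1 L, h r y = a y * Av T G w (N y) y := by
    intro y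
    have hf : (Icc 1 L).filter (fun r => r ≤ N y) = Icc 1 (N y) := by
      ext r
      have := (hNL y).2
      simp only [Finset.mem_filter, Finset.mem_Icc]
      omega
    have h5 : ∀ r ∈ Icc 1 L, h r y =
        if r ≤ N y then a y * (w r * G (T^[r] y)) / (N y : ℂ) else 0 := by
      intro r _
      simp only [hh, cf]
      split_ifs
      · ring
      · simp
    rw [Finset.sum_congr rfl h5, ← Finset.sum_filter, hf]
    unfold Av
    rw [← Finset.sum_div, ← Finset.mul_sum]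
    ring
  calc ∫ x, CC T w L N a x * G x ∂μ = ∫ x, ∑ r ∈ Icc 1 L, h r (T.symm^[r] x) ∂μ := by
        simp only [e1]
    _ = ∑ r ∈ Icc 1 L, ∫ x, h r (T.symm^[r] x) ∂μ := integral_finsetSum _ fun r _ => hinth r
    _ = ∑ r ∈ Icc 1 L, ∫ y, h r y ∂μ := Finset.sum_congr rfl fun r _ => e2 r
    _ = ∫ y, ∑ r ∈ Icc 1 L, h r y ∂μ := (integral_finsetSum _ fun r _ => hint r).symm
    _ = ∫ y, a y * Av T G w (N y) y ∂μ := by simp only [e3]

end Pool.Agent.H14.RTB
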