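import Pool.Agent.H94.RTB.Targets2

/-!
Return times, row SEL: selection of the best average in a window.
-/

namespace Pool.Agent.H14.RTB

open Pool.Agent.H94.RTB MeasureTheory Filter Topology Finset
open scoped ComplexConjugate NNReal

universe u v

theorem measurable_Av {X : Type u} [MeasurableSpace X] (T : X ≃ᵐ X) {F : X → ℂ}
    (w : ℕ → ℂ) (hF : Measurable F) (n : ℕ) : Measurable (Av T F w n) := by
  unfold Av
  refine Measurable.div_const ?_ _
  refine Finset.measurable_sum _ fun r _ => ?_
  exact (hF.comp (T.measurable.iterate r)).const_mul _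

theorem measurable_Av_sel {X : Type u} [MeasurableSpace X] (T : X ≃ᵐ X) {F : X → ℂ}
    (w : ℕ → ℂ) (hF : Measurable F) {N : X → ℕ} (hN : Measurable N) :
    Measurable fun x => Av T F w (N x) x := by
  intro s hs
  have h : (fun x => Av T F w (N x) x) ⁻¹' s = ⋃ n, (N ⁻¹' {n} ∩ (Av T F w n) ⁻¹' s) := by
    ext x
    simp
  rw [h]
  exact MeasurableSet.iUnion fun n =>
    (hN (measurableSet_singleton n)).inter (measurable_Av T w hF n hs)

theorem mx_succ {X : Type u} (T : X → X) (F : X → ℂ) (w : ℕ → ℂ) (M L : ℕ) (h : M ≤ L + 1)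
    (x : X) : mx T F w M (L + 1) x = max (‖Av T F w (L + 1) x‖) (mx T F w M L x) := by
  unfold mx
  rw [← Finset.insert_Icc_right_eq_Icc_add_one h, Finset.sup_insert]
  simp

theorem exists_sel {X : Type u} [MeasurableSpace X] (T : X ≃ᵐ X) (F : X → ℂ) (w : ℕ → ℂ)
    (M : ℕ) (hF : Measurable F) (L : ℕ) (hL : M ≤ L) :
    ∃ N : X → ℕ, Measurable N ∧ (∀ x, M ≤ N x ∧ N x ≤ L) ∧
      ∀ x, ‖Av T F w (N x) x‖ = mx T F w M L x := by
  induction L, hL using Nat.le_induction with
  | base =>
    refine ⟨fun _ => M, measurable_const, fun x => ⟨le_refl _, le_refl _⟩, fun x => ?_⟩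
    unfold mx
    simp
  | succ L hL ih =>
    obtain ⟨N, h1, h2, h3⟩ := ih
    have hset : MeasurableSet {x | ‖Av T F w (L + 1) x‖ ≤ ‖Av T F w (N x) x‖} :=
      measurableSet_le (measurable_Av T w hF (L + 1)).norm (measurable_Av_sel T w hF h1).norm
    classical
    refine ⟨fun x => if ‖Av T F w (L + 1) x‖ ≤ ‖Av T F w (N x) x‖ then N x else L + 1,
      Measurable.ite hset h1 measurable_const, fun x => ?_, fun x => ?_⟩
    · have := h2 x
      dsimp only
      split_ifs <;> omega
    · rw [mx_succ _ _ _ _ _ (by omega)]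
      dsimp only
      split_ifs with hc
      · rw [h3] at hc ⊢
        rw [max_eq_right hc]
      · rw [h3] at hc
        rw [max_eq_left (not_le.1 hc).le]

theorem pf_SEL : T_SEL.{u} := by
  intro X _ T F w M L hF hL
  obtain ⟨N, h1, h2, h3⟩ := exists_sel T F w M hF L hL
  refine ⟨N, h1, h2, fun x => conj (Av T F w (N x) x) / (‖Av T F w (N x) x‖ : ℂ), ?_, ?_, ?_⟩
  · have h4 := measurable_Av_sel T w hF h1
    exact (Complex.continuous_conj.measurable.comp h4).div
      (Complex.measurable_ofReal.comp h4.norm)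
  · intro x
    rw [norm_div, RCLike.norm_conj, Complex.norm_real, norm_norm]
    exact div_self_le_one _
  · intro x
    rw [← h3 x]
    by_cases hz : Av T F w (N x) x = 0
    · simp [hz]
    · have hn : (‖Av T F w (N x) x‖ : ℂ) ≠ 0 := by
        rw [Ne, Complex.ofReal_eq_zero, norm_eq_zero]
        exact hz
      rw [div_mul_eq_mul_div, div_eq_iff hn, mul_comm, Complex.mul_conj, Complex.normSq_eq_norm_sq]
      push_cast
      ring

end Pool.Agent.H14.RTB
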